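import Pool.Agent.Y330.H.P1

set_option autoImplicit false
set_option linter.unusedSectionVars false

open Filter Topology Set Metric unitInterval

namespace Pool.Agent.Y330.J

open Pool.Agent.H789R2.AN Pool.Agent.H789R2.GP Pool.Agent.TH289.L
open Pool.Agent.TH304.K289 Pool.Agent.Y330.H Pool.Agent.Y330.G

theorem contr_I : ContractibleSpace I :=
  (convex_Icc (0 : ℝ) 1).contractibleSpace ⟨0, by simp⟩

/-- equality of paths up to casts -/
theorem hom_cast {B : Type*} [TopologicalSpace B] {x y x' y' : B} (h1 : x' = x)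
    (h2 : y' = y) (γ γ' : Path x y) (h : Path.Homotopic (γ.cast h1 h2) (γ'.cast h1 h2)) :
    Path.Homotopic γ γ' := by
  subst h1
  subst h2
  exact h

variable {X : Type*} [MetricSpace X] [CompactSpace X] {g : X ≃ₜ X} {c : ℝ}

/-- paths in stable leaves -/
def LPath (g : X ≃ₜ X) {x y : X} (p : Path x y) : Prop :=
  Con g (fun _ : I => x) (fun t => p t)

theorem LPath.sm {x y : X} {p : Path x y} (hp : LPath g p) :
    ∃ v : C(I, SM g), ∀ t, (v t).val = p t := by
  refine ⟨⟨fun t => ⟨p t⟩, ?_⟩, fun t => rfl⟩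
  rw [Metric.continuous_iff']
  intro t ε hε
  filter_upwards [hp.cont p.continuous t (half_pos hε)] with r hr
  have h5 : dist (⟨p r⟩ : SM g) ⟨p t⟩ ≤ ε / 2 :=
    (SM.dist_le _ _ (half_pos hε).le).2 hr.symm'
  exact lt_of_le_of_lt h5 (half_lt_self hε)

theorem con_of_sm (hg : LP g c) (v : C(I, SM g)) :
    Con g (fun _ : I => (v 0).val) (fun t => (v t).val) := by
  intro ε hε
  obtain ⟨n, hn⟩ := path_small hg v hε
  exact ⟨n, fun m hm t => by simpa using hn m hm t 0⟩

theorem lpath_of_sm (hg : LP g c) (v : C(I, SM g)) {x y : X} (p : Path x y)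
    (h : ∀ t, p t = (v t).val) : LPath g p := by
  have h1 := con_of_sm hg v
  have e : (v 0).val = x := by rw [← h, p.source]
  intro ε hε
  obtain ⟨n, hn⟩ := h1 ε hε
  refine ⟨n, fun m hm t => ?_⟩
  have := hn m hm t
  simp only [e] at this
  show dist (g^[m] x) (g^[m] (p t)) ≤ ε
  rw [h]
  exact this

theorem LPath.refl (g : X ≃ₜ X) (x : X) : LPath g (Path.refl x) := by
  intro ε hε
  refine ⟨0, fun m _ t => ?_⟩
  show dist (g^[m] x) (g^[m] x) ≤ ε
  rw [dist_self]
  exact hε.le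

theorem LPath.symm {x y : X} {p : Path x y} (hp : LPath g p) : LPath g p.symm := by
  intro ε hε
  obtain ⟨n, hn⟩ := hp (ε / 2) (half_pos hε)
  refine ⟨n, fun m hm t => ?_⟩
  have h1 := hn m hm 1
  have h2 := hn m hm (σ t)
  simp only [p.target] at h1
  show dist (g^[m] y) (g^[m] (p (σ t))) ≤ ε
  have := dist_triangle_left (g^[m] y) (g^[m] (p (σ t))) (g^[m] x)
  linarith

theorem LPath.trans {x y z : X} {p : Path x y} {q : Path y z} (hp : LPath g p) (hq : LPath g q) :
    LPath g (p.trans q) := by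
  intro ε hε
  obtain ⟨n, hn⟩ := hp (ε / 2) (half_pos hε)
  obtain ⟨n', hn'⟩ := hq (ε / 2) (half_pos hε)
  refine ⟨max n n', fun m hm t => ?_⟩
  have k1 := (le_max_left _ _).trans hm
  have k2 := (le_max_right _ _).trans hm
  show dist (g^[m] x) (g^[m] (p.trans q t)) ≤ ε
  rw [Path.trans_apply]
  split_ifs with h
  · exact (hn m k1 _).trans (half_le_self hε.le)
  · have h1 := hn m k1 1
    have h2 := hn' m k2 ⟨2 * (t : ℝ) - 1, unitInterval.two_mul_sub_one_mem_iff.2
      ⟨(not_le.1 h).le, t.2.2⟩⟩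
    simp only [p.target] at h1
    have := dist_triangle (g^[m] x) (g^[m] y) (g^[m] (q ⟨2 * (t : ℝ) - 1,
      unitInterval.two_mul_sub_one_mem_iff.2 ⟨(not_le.1 h).le, t.2.2⟩⟩))
    linarith

/-- paths in a leaf with the same end points are homotopic -/
theorem hom_unique (hX : ULC X) {x y : X} {p p' : Path x y} (hp : LPath g p) (hp' : LPath g p') :
    p.Homotopic p' := by
  obtain ⟨δ, hδ, h1⟩ := hX.homo 1 one_pos
  obtain ⟨n, hn⟩ := hp (δ / 2) (half_pos hδ)
  obtain ⟨n', hn'⟩ := hp' (δ / 2) (half_pos hδ)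
  set m := max n n'
  have k1 : n ≤ m := le_max_left _ _
  have k2 : n' ≤ m := le_max_right _ _
  obtain ⟨H, a1, a2, a3, a4, -⟩ := h1 (g^[m] x)
    ⟨fun t => g^[m] (p t), (g.continuous.iterate m).comp p.continuous⟩
    ⟨fun t => g^[m] (p' t), (g.continuous.iterate m).comp p'.continuous⟩
    (by simp) (by simp)
    (fun t => by
      rw [mem_ball, dist_comm]
      exact lt_of_le_of_lt (hn m k1 t) (half_lt_self hδ))
    (fun t => by
      rw [mem_ball, dist_comm]
      exact lt_of_le_of_lt (hn' m k2 t) (half_lt_self hδ))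
  simp only [ContinuousMap.coe_mk] at a1 a2 a3 a4
  refine ⟨⟨⟨⟨fun q => g.symm^[m] (H q), (g.symm.continuous.iterate m).comp H.continuous⟩,
    ?_, ?_⟩, ?_⟩⟩
  · intro t
    show g.symm^[m] (H (0, t)) = p t
    rw [a1, iterL]
  · intro t
    show g.symm^[m] (H (1, t)) = p' t
    rw [a2, iterL]
  · intro s t ht
    rcases ht with rfl | ht
    · show g.symm^[m] (H (s, 0)) = p 0
      rw [a3, iterL]
    · obtain rfl : t = 1 := ht
      show g.symm^[m] (H (s, 1)) = p 1
      rw [a4, iterL]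

/-- the boundary of a square -/
theorem rect_hom {R : I → I → X} (hc : Continuous fun p : I × I => R p.1 p.2) {a b d e : X}
    {α : Path a b} {β : Path b d} {β' : Path a e} {α' : Path e d} (h1 : ∀ s, R s 0 = α s)
    (h2 : ∀ t, R 1 t = β t) (h3 : ∀ t, R 0 t = β' t) (h4 : ∀ s, R s 1 = α' s) :
    (α.trans β).Homotopic (β'.trans α') := by
  haveI := contr_I
  let F : C(I × I, X) := ⟨fun p => R p.1 p.2, hc⟩
  let b₀ : Path ((0, 0) : I × I) (1, 0) := ⟨⟨fun s => (s, 0), by fun_prop⟩, rfl, rfl⟩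
  let r₀ : Path ((1, 0) : I × I) (1, 1) := ⟨⟨fun t => (1, t), by fun_prop⟩, rfl, rfl⟩
  let l₀ : Path ((0, 0) : I × I) (0, 1) := ⟨⟨fun t => (0, t), by fun_prop⟩, rfl, rfl⟩
  let t₀ : Path ((0, 1) : I × I) (1, 1) := ⟨⟨fun s => (s, 1), by fun_prop⟩, rfl, rfl⟩
  have k : ((b₀.trans r₀).map F.continuous).Homotopic ((l₀.trans t₀).map F.continuous) :=
    (SimplyConnectedSpace.paths_homotopic (b₀.trans r₀) (l₀.trans t₀)).map F
  have ea : F (0, 0) = a := by
    show R 0 0 = a
    rw [h1, α.source]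
  have ed : F (1, 1) = d := by
    show R 1 1 = d
    rw [h2, β.target]
  have e1 : (b₀.trans r₀).map F.continuous = (α.trans β).cast ea ed := by
    ext t
    show F ((b₀.trans r₀) t) = (α.trans β) t
    rw [Path.trans_apply, Path.trans_apply]
    split_ifs with h
    · exact h1 _
    · exact h2 _
  have e2 : (l₀.trans t₀).map F.continuous = (β'.trans α').cast ea ed := by
    ext t
    show F ((l₀.trans t₀) t) = (β'.trans α') t
    rw [Path.trans_apply, Path.trans_apply]
    split_ifs with h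
    · exact h3 _
    · exact h4 _
  rw [e1, e2] at k
  exact hom_cast _ _ _ _ k

end Pool.Agent.Y330.J
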