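import Pool.Agent.Y330.J.A1

set_option autoImplicit false
set_option linter.unusedSectionVars false

open Filter Topology Set Metric unitInterval

namespace Pool.Agent.Y330.J

open Pool.Agent.H789R2.AN Pool.Agent.H789R2.GP Pool.Agent.TH289.L
open Pool.Agent.TH304.K289 Pool.Agent.Y330.H Pool.Agent.Y330.G

variable {X : Type*} [MetricSpace X] [CompactSpace X] {g : X ≃ₜ X} {c : ℝ}

/-- the class of a path -/
abbrev cl {x y : X} (p : Path x y) : Path.Homotopic.Quotient x y := Path.Homotopic.Quotient.mk p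

theorem cl_trans {x y z : X} (p : Path x y) (q : Path y z) :
    cl (p.trans q) = (cl p).trans (cl q) := Path.Homotopic.Quotient.mk_trans p q

theorem cl_symm {x y : X} (p : Path x y) : cl p.symm = (cl p).symm :=
  Path.Homotopic.Quotient.mk_symm p

theorem cl_eq {x y : X} {p q : Path x y} (h : p.Homotopic q) : cl p = cl q :=
  Path.Homotopic.Quotient.eq.2 h

/-- swapping a stable and an unstable path -/
theorem swap_cl {R : I → I → X} (hc : Continuous fun p : I × I => R p.1 p.2) {a b d e : X}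
    {α : Path a b} {β : Path b d} {β' : Path a e} {α' : Path e d} (h1 : ∀ s, R s 0 = α s)
    (h2 : ∀ t, R 1 t = β t) (h3 : ∀ t, R 0 t = β' t) (h4 : ∀ s, R s 1 = α' s) :
    (cl α.symm).trans (cl β') = (cl β).trans (cl α'.symm) := by
  have h := cl_eq (rect_hom hc h1 h2 h3 h4)
  rw [cl_trans, cl_trans] at h
  rw [cl_symm, cl_symm]
  have h5 : (cl α).symm.trans (((cl α).trans (cl β)).trans (cl α').symm) =
      (cl α).symm.trans (((cl β').trans (cl α')).trans (cl α').symm) := by rw [h]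
  rw [Path.Homotopic.Quotient.trans_assoc (cl β'), Path.Homotopic.Quotient.trans_symm,
    Path.Homotopic.Quotient.trans_refl, Path.Homotopic.Quotient.trans_assoc (cl α),
    ← Path.Homotopic.Quotient.trans_assoc (cl α).symm (cl α),
    Path.Homotopic.Quotient.symm_trans, Path.Homotopic.Quotient.refl_trans] at h5
  exact h5.symm

/-- existence of rectangles -/
def Ex (g : X ≃ₜ X) : Prop :=
  ∀ (x a y : X) (σ' : Path x a) (p : Path x y), LPath g σ' → LPath g.symm p →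
    ∃ R : I → I → X, Rc g R ∧ (∀ s, R s 0 = σ' s) ∧ ∀ t, R 0 t = p t

theorem ex_of_lf (hg : LP g c) {c₁ : ℝ} (hc₁ : 0 < c₁) (hs : Sl g c c₁)
    (hlf : ∀ a s, WS g a s → Lf g a s) : Ex g := by
  intro x a y σ' p hσ hp
  obtain ⟨τ, hτ⟩ := hσ.sm
  obtain ⟨v, hv⟩ := hp.sm
  obtain ⟨R, h1, h2, h3⟩ := rc_of_strips hg hc₁ hs τ v (by rw [hτ, hv, σ'.source, p.source])
    (fun s => by
      have hw : WS g x (τ s).val := by
        rw [hτ]
        exact Con.toWS hσ s
      obtain ⟨x', Γ, k1, -, k3⟩ := hlf x (τ s).val hw v (by rw [hv, p.source])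
      exact ⟨Γ, k1, k3⟩)
  exact ⟨R, h1, fun s => by rw [h2, hτ], fun t => by rw [h3, hv]⟩

/-- the right side -/
theorem Rc.right {R : I → I → X} (h : Rc g R) {x y : X} (h0 : R 1 0 = x) (h1 : R 1 1 = y) :
    ∃ p : Path x y, LPath g.symm p ∧ ∀ t, p t = R 1 t := by
  subst h0
  subst h1
  refine ⟨⟨⟨fun t => R 1 t, h.cont.comp (by fun_prop : Continuous fun t : I => ((1 : I), t))⟩,
    rfl, rfl⟩, ?_, fun t => rfl⟩
  exact Con.reidx h.cu (fun t : I => ((1 : I), t))

/-- the top side -/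
theorem Rc.top {R : I → I → X} (h : Rc g R) {x y : X} (h0 : R 0 1 = x) (h1 : R 1 1 = y) :
    ∃ p : Path x y, LPath g p ∧ ∀ s, p s = R s 1 := by
  subst h0
  subst h1
  refine ⟨⟨⟨fun s => R s 1, h.cont.comp (by fun_prop : Continuous fun s : I => (s, (1 : I)))⟩,
    rfl, rfl⟩, ?_, fun t => rfl⟩
  exact Con.reidx h.cs (fun s : I => (s, (1 : I)))

/-- a class is a product of an unstable and a stable path -/
def NF (g : X ≃ₜ X) {x z : X} (α : Path.Homotopic.Quotient x z) : Prop :=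
  ∃ (y : X) (p : Path x y) (q : Path y z), LPath g.symm p ∧ LPath g q ∧ α = (cl p).trans (cl q)

theorem NF.trans (hex : Ex g) {x z w : X} {α : Path.Homotopic.Quotient x z}
    {β : Path.Homotopic.Quotient z w} (hα : NF g α) (hβ : NF g β) : NF g (α.trans β) := by
  obtain ⟨y, p, q, hp, hq, rfl⟩ := hα
  obtain ⟨y', p', q', hp', hq', rfl⟩ := hβ
  obtain ⟨R, hR, h1, h2⟩ := hex z y y' q.symm p' hq.symm hp'
  obtain ⟨r, hr, hr'⟩ := Rc.right (y := R 1 1) hR (x := y) (by rw [h1]; simp) rfl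
  obtain ⟨t, ht, ht'⟩ := Rc.top (y := R 1 1) hR (x := y') (by rw [h2]; simp) rfl
  have hsw := swap_cl hR.cont (α := q.symm) (β := r) (β' := p') (α' := t) h1
    (fun t => (hr' t).symm) h2 (fun s => (ht' s).symm)
  rw [Path.symm_symm] at hsw
  refine ⟨R 1 1, p.trans r, t.symm.trans q', hp.trans hr, ht.symm.trans hq', ?_⟩
  rw [cl_trans, cl_trans, Path.Homotopic.Quotient.trans_assoc, Path.Homotopic.Quotient.trans_assoc,
    ← Path.Homotopic.Quotient.trans_assoc (cl q), hsw, Path.Homotopic.Quotient.trans_assoc]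

/-- small paths -/
theorem nf_small (hg : LP g c) (hX : ULC X) : ∃ δ > 0, ∀ (x z : X) (p : Path x z),
    (∀ t, dist x (p t) < δ) → NF g (cl p) := by
  obtain ⟨δ₁, hδ₁, h1⟩ := hX.homo 1 one_pos
  obtain ⟨η, hη, h2⟩ := leaf_path hg hX (δ₁ / 3) (by positivity)
  obtain ⟨η', hη', h2'⟩ := leaf_path hg.symm hX (δ₁ / 3) (by positivity)
  obtain ⟨δ₂, hδ₂, h3⟩ := hg.lp (min η η') (lt_min hη hη')
  refine ⟨min (δ₁ / 3) δ₂, by positivity, fun x z p hp => ?_⟩
  have hz := hp 1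
  rw [p.target] at hz
  obtain ⟨w, a1, a2⟩ := h3 z x (by
    rw [dist_comm]
    exact lt_of_lt_of_le hz (min_le_right _ _))
  obtain ⟨υ, b1, b2, b3⟩ := h2' ⟨x⟩ ⟨w⟩ ((SM.dist_le _ _ hη'.le).2 (a2.mono (min_le_right _ _)))
  obtain ⟨τ, d1, d2, d3⟩ := h2 ⟨z⟩ ⟨w⟩ ((SM.dist_le _ _ hη.le).2 (a1.mono (min_le_left _ _)))
  let p₁ : Path x w := ⟨⟨fun t => (υ t).val, SM.val_continuous.comp υ.continuous⟩,
    by simp [b1], by simp [b2]⟩
  let q₁ : Path z w := ⟨⟨fun t => (τ t).val, SM.val_continuous.comp τ.continuous⟩,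
    by simp [d1], by simp [d2]⟩
  have hp₁ : LPath g.symm p₁ := lpath_of_sm hg.symm υ p₁ fun t => rfl
  have hq₁ : LPath g q₁ := lpath_of_sm hg τ q₁ fun t => rfl
  refine ⟨w, p₁, q₁.symm, hp₁, hq₁.symm, ?_⟩
  rw [← cl_trans]
  apply cl_eq
  have e1 : ∀ t, dist x (p₁ t) ≤ δ₁ / 3 := fun t => by
    have := ((SM.dist_le _ _ (by positivity)).1 (b3 t)).dist12
    exact this
  have e2 : ∀ t, dist z (q₁ t) ≤ δ₁ / 3 := fun t => by
    have := ((SM.dist_le _ _ (by positivity)).1 (d3 t)).dist12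
    exact this
  have hz' : dist x z < δ₁ / 3 := lt_of_lt_of_le hz (min_le_left _ _)
  obtain ⟨H, c1, c2, c3, c4, -⟩ := h1 x p.toContinuousMap (p₁.trans q₁.symm).toContinuousMap
    (by simp) (by simp)
    (fun t => by
      rw [mem_ball, dist_comm]
      exact lt_of_lt_of_le (hp t) ((min_le_left _ _).trans (by linarith)))
    (fun t => by
      rw [mem_ball, dist_comm]
      show dist x ((p₁.trans q₁.symm) t) < δ₁
      rw [Path.trans_apply]
      split_ifs with h
      · linarith [e1 ⟨2 * t, (unitInterval.mul_pos_mem_iff zero_lt_two).2 ⟨t.2.1, h⟩⟩]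
      · have e3 := e2 (σ ⟨2 * (t : ℝ) - 1, unitInterval.two_mul_sub_one_mem_iff.2
          ⟨(not_le.1 h).le, t.2.2⟩⟩)
        have := dist_triangle x z (q₁ (σ ⟨2 * (t : ℝ) - 1, unitInterval.two_mul_sub_one_mem_iff.2
          ⟨(not_le.1 h).le, t.2.2⟩⟩))
        show dist x (q₁ (σ _)) < δ₁
        linarith)
  refine ⟨⟨⟨H, fun t => ?_, fun t => ?_⟩, fun s t ht => ?_⟩⟩
  · exact c1 t
  · exact c2 t
  · rcases ht with rfl | ht
    · exact c3 s
    · obtain rfl : t = 1 := ht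
      exact c4 s

end Pool.Agent.Y330.J
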