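import Pool.Agent.Y330.J.A2

set_option autoImplicit false
set_option linter.unusedSectionVars false

open Filter Topology Set Metric unitInterval

namespace Pool.Agent.Y330.J

open Pool.Agent.H789R2.AN Pool.Agent.H789R2.GP Pool.Agent.TH289.L
open Pool.Agent.TH304.K289 Pool.Agent.Y330.H Pool.Agent.Y330.G

variable {X : Type*} [MetricSpace X] [CompactSpace X] {g : X ≃ₜ X} {c : ℝ}

/-- linear paths in the interval -/
noncomputable def lin (a b : I) : Path a b where
  toFun s := ⟨(1 - (s : ℝ)) * a + s * b,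
    (convex_Icc (0 : ℝ) 1) a.2 b.2 (by linarith [s.2.2]) s.2.1 (by ring)⟩
  continuous_toFun := by fun_prop
  source' := by
    apply Subtype.ext
    simp
  target' := by
    apply Subtype.ext
    simp

theorem lin_dist (a b s : I) : dist a (lin a b s) ≤ dist a b := by
  rw [Subtype.dist_eq, Subtype.dist_eq, Real.dist_eq, Real.dist_eq]
  show |(a : ℝ) - ((1 - (s : ℝ)) * a + s * b)| ≤ |(a : ℝ) - b|
  have e : (a : ℝ) - ((1 - (s : ℝ)) * a + s * b) = s * (a - b) := by ring
  rw [e, abs_mul, abs_of_nonneg s.2.1]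
  exact mul_le_of_le_one_left (abs_nonneg _) s.2.2

theorem nf_all (hg : LP g c) (hX : ULC X) (hex : Ex g) {x z : X} (p : Path x z) :
    NF g (cl p) := by
  obtain ⟨f, h0, h1⟩ := p
  subst h0
  subst h1
  obtain ⟨δ, hδ, hsm⟩ := nf_small hg hX
  have hu : UniformContinuous f := CompactSpace.uniformContinuous_of_continuous f.continuous
  rw [Metric.uniformContinuous_iff] at hu
  obtain ⟨δ', hδ', h2⟩ := hu δ hδ
  haveI := contr_I
  have key : ∀ t : I, NF g (cl ((lin 0 t).map f.continuous)) := by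
    refine interval_induct (S := fun t => NF g (cl ((lin 0 t).map f.continuous))) hδ' ?_ ?_
    · refine hsm _ _ _ fun s => ?_
      show dist (f 0) (f (lin 0 0 s)) < δ
      refine h2 (lt_of_le_of_lt (lin_dist _ _ _) ?_)
      rw [dist_self]
      exact hδ'
    · intro t ht t'' htt
      have e : cl ((lin 0 t'').map f.continuous) =
          (cl ((lin 0 t).map f.continuous)).trans (cl ((lin t t'').map f.continuous)) := by
        rw [← cl_trans, ← Path.map_trans]
        exact cl_eq ((SimplyConnectedSpace.paths_homotopic (lin 0 t'')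
          ((lin 0 t).trans (lin t t''))).map f)
      rw [e]
      refine (ht t le_rfl).trans hex (hsm _ _ _ fun s => ?_)
      show dist (f t) (f (lin t t'' s)) < δ
      exact h2 (lt_of_le_of_lt (lin_dist _ _ _) htt)
  have h3 := key 1
  have e : (lin 0 1).map f.continuous = (⟨f, rfl, rfl⟩ : Path (f 0) (f 1)) := by
    ext s
    show f (lin 0 1 s) = f s
    congr 1
    apply Subtype.ext
    show (1 - (s : ℝ)) * ((0 : I) : ℝ) + s * ((1 : I) : ℝ) = s
    simp
  rw [e] at h3
  exact h3

/-- the corner of a rectangle depends only on the end point of the side -/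
theorem corner (hg : LP g c) {R R' : I → I → X} (h : Rc g R) (h' : Rc g R')
    (h0 : ∀ s, R s 0 = R' s 0) (h1 : R 0 1 = R' 0 1) : R 1 1 = R' 1 1 := by
  have hA : Rc g (fun s t => R s (σ t)) :=
    h.reparam (a := fun s => s) (b := fun t => σ t) continuous_id (by fun_prop)
  obtain ⟨T, hT, t1, t2⟩ := hA.glue h' (fun s => by
    show R s (σ 1) = R' s 0
    rw [unitInterval.symm_one, h0])
  have hT' : Rc g (fun s t => T (σ s) t) :=
    hT.reparam (a := fun s => σ s) (b := fun t => t) (by fun_prop) continuous_id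
  have e0 : ∀ s, T s 0 = R s 1 := fun s => by
    rw [t1]
    show R s (σ 0) = R s 1
    rw [unitInterval.symm_zero]
  have key := ih_all hg _ hT' (by
    show T (σ 1) 1 = T (σ 1) 0
    rw [unitInterval.symm_one, e0, t2, h1])
  have key' : T (σ 0) 1 = T (σ 0) 0 := key
  rw [unitInterval.symm_zero, e0, t2] at key'
  exact key'.symm

/-- gluing in the stable direction -/
theorem Rc.glueS {R R' : I → I → X} (h : Rc g R) (h' : Rc g R') (hm : ∀ t, R 1 t = R' 0 t) :
    ∃ R'' : I → I → X, Rc g R'' ∧ (∀ t, R'' 0 t = R 0 t) ∧ ∀ t, R'' 1 t = R' 1 t := by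
  obtain ⟨T, h1, h2, h3⟩ := (h.tr).glue h'.tr hm
  exact ⟨fun s t => T t s, h1.tr, h2, h3⟩

/-- constant rectangles -/
theorem rc_const {x y : X} {p : Path x y} (hp : LPath g.symm p) : Rc g (fun _ t => p t) where
  cont := p.continuous.comp continuous_snd
  cs := Con.refl' g _
  cu := by
    have h1 : Con g.symm (fun _ : I × I => x) (fun q : I × I => p q.2) :=
      Con.reidx hp (fun q : I × I => q.2)
    simpa using h1

/-- chains through a finite colouring -/
theorem chain_col {Y Z : Type*} [DecidableEq Y] [PseudoMetricSpace Z] (u : I → Z)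
    (h : I → I → Prop) (hsymm : ∀ s s', h s s' → h s' s) (κ : I → Y) {e : ℝ} (he : 0 ≤ e)
    (hh : ∀ s s' s'', h s s' → h s' s'' → dist (u s) (u s'') ≤ e)
    (hcol : ∀ s s', κ s = κ s' → h s s') (hcont : ∀ s₀ : I, ∀ᶠ s in 𝓝 s₀, h s₀ s) :
    ∀ (n : ℕ) (F : Finset Y), F.card = n → ∀ a : I, (∀ s, a ≤ s → κ s ∈ F) →
      dist (u a) (u 1) ≤ 2 * n * e := by
  intro n
  induction n with
  | zero =>
    intro F hF a ha
    have := ha a le_rfl
    rw [Finset.card_eq_zero.1 hF] at this
    exact absurd this (Finset.notMem_empty _)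
  | succ n ih =>
    intro F hF a ha
    set S : Set ℝ := {x | ∃ s : I, (s : ℝ) = x ∧ a ≤ s ∧ κ s = κ a} with hS
    have hSn : S.Nonempty := ⟨a, a, rfl, le_rfl, rfl⟩
    have hSb : BddAbove S := ⟨1, by rintro x ⟨s, rfl, -, -⟩; exact s.2.2⟩
    set b := sSup S with hb
    have hab : (a : ℝ) ≤ b := le_csSup hSb ⟨a, rfl, le_rfl, rfl⟩
    have hb1 : b ≤ 1 := csSup_le hSn (by rintro x ⟨s, rfl, -, -⟩; exact s.2.2)
    have hb0 : 0 ≤ b := a.2.1.trans hab
    obtain ⟨δ, hδ, hball⟩ := Metric.eventually_nhds_iff.1 (hcont ⟨b, hb0, hb1⟩)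
    obtain ⟨x, ⟨s, rfl, has, hκ⟩, hs⟩ := exists_lt_of_lt_csSup hSn (show b - δ < sSup S by linarith)
    have hsb : (s : ℝ) ≤ b := le_csSup hSb ⟨s, rfl, has, hκ⟩
    have k1 : h ⟨b, hb0, hb1⟩ s := hball (by
      rw [Subtype.dist_eq, Real.dist_eq, abs_lt]
      constructor
      · show -δ < (s : ℝ) - b
        linarith
      · show (s : ℝ) - b < δ
        linarith)
    have k2 : dist (u a) (u ⟨b, hb0, hb1⟩) ≤ e := hh _ _ _ (hcol _ _ hκ.symm) (hsymm _ _ k1)
    have hn0 : (0 : ℝ) ≤ n := Nat.cast_nonneg n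
    rcases eq_or_lt_of_le hb1 with hb' | hb'
    · have e1 : (⟨b, hb0, hb1⟩ : I) = 1 := Subtype.ext hb'
      rw [e1] at k2
      push_cast
      nlinarith
    · set s₁ : I := ⟨min 1 (b + δ / 2), le_min zero_le_one (by linarith), min_le_left _ _⟩ with hs₁
      have hs₁b : b < (s₁ : ℝ) := by
        show b < min 1 (b + δ / 2)
        exact lt_min hb' (by linarith)
      have k3 : h ⟨b, hb0, hb1⟩ s₁ := hball (by
        rw [Subtype.dist_eq, Real.dist_eq, abs_lt]
        constructor
        · show -δ < (s₁ : ℝ) - b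
          linarith
        · show min 1 (b + δ / 2) - b < δ
          have := min_le_right 1 (b + δ / 2)
          linarith)
      have k4 : dist (u ⟨b, hb0, hb1⟩) (u s₁) ≤ e := hh _ _ _ (hcol _ _ rfl) k3
      have k5 := ih (F.erase (κ a)) (by
        rw [Finset.card_erase_of_mem (ha a le_rfl), hF, Nat.add_sub_cancel]) s₁ (fun s' hs' => by
          refine Finset.mem_erase.2 ⟨fun hc => ?_, ha s' ?_⟩
          · have : (s' : ℝ) ≤ b := le_csSup hSb ⟨s', rfl, ?_, hc⟩
            · have h7 : (s₁ : ℝ) ≤ s' := hs'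
              linarith
            · have h7 : (s₁ : ℝ) ≤ s' := hs'
              show (a : ℝ) ≤ s'
              linarith
          · have h7 : (s₁ : ℝ) ≤ s' := hs'
            show (a : ℝ) ≤ s'
            linarith)
      have k6 := dist_triangle4 (u a) (u ⟨b, hb0, hb1⟩) (u s₁) (u 1)
      push_cast
      linarith

/-- finite colourings with small colour classes -/
theorem exists_col (X : Type*) [MetricSpace X] [CompactSpace X] {η : ℝ} (hη : 0 < η) :
    ∃ (Q : ℕ) (col : X → Fin (Q + 1)), ∀ x y, col x = col y → dist x y ≤ η := by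
  classical
  obtain ⟨t, -, ht, hcov⟩ := (isCompact_univ (X := X)).finite_cover_balls (half_pos hη)
  have hch : ∀ x : X, ∃ p ∈ t, dist x p < η / 2 := by
    intro x
    have := hcov (mem_univ x)
    simpa using this
  choose p hp hd using hch
  set F := ht.toFinset with hF
  refine ⟨F.card, fun x => ⟨(F.equivFin ⟨p x, by rw [hF, Set.Finite.mem_toFinset]; exact hp x⟩ : ℕ),
    lt_of_lt_of_le (F.equivFin _).2 (Nat.le_succ _)⟩, fun x y hxy => ?_⟩
  have h1 : F.equivFin ⟨p x, by rw [hF, Set.Finite.mem_toFinset]; exact hp x⟩ =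
      F.equivFin ⟨p y, by rw [hF, Set.Finite.mem_toFinset]; exact hp y⟩ :=
    Fin.ext (by simpa using hxy)
  have h2 : p x = p y := congrArg Subtype.val (F.equivFin.injective h1)
  have h3 := dist_triangle_right x y (p x)
  have h4 := hd x
  have h5 := hd y
  rw [← h2] at h5
  linarith

end Pool.Agent.Y330.J
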