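import Pool.Agent.Y330.J.A3

set_option autoImplicit false
set_option linter.unusedSectionVars false

open Filter Topology Set Metric unitInterval

namespace Pool.Agent.Y330.J

open Pool.Agent.H789R2.AN Pool.Agent.H789R2.GP Pool.Agent.TH289.L
open Pool.Agent.TH304.K289 Pool.Agent.Y330.H Pool.Agent.Y330.G

variable {X : Type*} [MetricSpace X] [CompactSpace X] {g : X ≃ₜ X} {c : ℝ}

/-- uniformly bounded stable holonomies -/
def Bd (g : X ≃ₜ X) (ρ : ℝ) (K : ℕ) : Prop := ∀ R₀ : I → I → X, Rc g R₀ →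
  Lv g ρ 0 (R₀ 0 0) (R₀ 0 1) → Lv g ρ K (R₀ 1 0) (R₀ 1 1)

theorem Bd.shift {ρ : ℝ} {K : ℕ} (h : Bd g ρ K) (i : ℕ) {R : I → I → X} (hR : Rc g R)
    (h0 : Lv g ρ i (R 0 0) (R 0 1)) : Lv g ρ (K + i) (R 1 0) (R 1 1) := by
  have := h _ (hR.iter' i) (by rw [Lv.add_iff, zero_add]; exact h0)
  rwa [Lv.add_iff] at this

theorem pow_bound (Q k₀ m : ℕ) : 2 * (Q + 1) ^ (m + k₀ + 1) ≤ 2 ^ ((Q * (k₀ + 1) + 1) * (m + 1)) := by
  have h1 : Q + 1 ≤ 2 ^ Q := Nat.lt_two_pow_self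
  have h2 : (Q + 1) ^ (m + k₀ + 1) ≤ (2 ^ Q) ^ (m + k₀ + 1) := Nat.pow_le_pow_left h1 _
  rw [← pow_mul] at h2
  have h3 : Q * (m + k₀ + 1) + 1 ≤ (Q * (k₀ + 1) + 1) * (m + 1) := by nlinarith [Nat.zero_le (Q * k₀ * m)]
  calc 2 * (Q + 1) ^ (m + k₀ + 1) ≤ 2 * 2 ^ (Q * (m + k₀ + 1)) := Nat.mul_le_mul_left _ h2
    _ = 2 ^ (Q * (m + k₀ + 1) + 1) := by rw [pow_succ]; ring
    _ ≤ _ := Nat.pow_le_pow_right (by norm_num) h3

theorem half_pow {N n : ℕ} {A c : ℝ} (hc : 0 ≤ c) (hA : A ≤ 2 ^ N) (hn : N ≤ n) :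
    A * (c * (1 / 2) ^ n) ≤ c * (1 / 2) ^ (n - N) := by
  have h1 : (2 : ℝ) ^ N * (1 / 2) ^ n = (1 / 2) ^ (n - N) := by
    conv_lhs => rw [← Nat.sub_add_cancel hn, pow_add]
    rw [mul_comm ((1 / 2 : ℝ) ^ (n - N)), ← mul_assoc, ← mul_pow]
    norm_num
  calc A * (c * (1 / 2) ^ n) ≤ 2 ^ N * (c * (1 / 2) ^ n) :=
        mul_le_mul_of_nonneg_right hA (by positivity)
    _ = c * (2 ^ N * (1 / 2) ^ n) := by ring
    _ = _ := by rw [h1]

/-- transport of stable displacements -/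
theorem transport (hg : LP g c) {c₁ : ℝ} (hs : Sl g c c₁) {ρ : ℝ} (hρ : ρ ≤ c₁) {K : ℕ}
    (hb : Bd g ρ K) : ∃ q : ℕ, ∀ (i j : ℕ) (R : I → I → X), Rc g R →
      (∀ t, Lv g ρ i (R 0 0) (R 0 t)) → (∀ s, SR g (c / 2) (g^[j] (R 0 0)) (g^[j] (R s 0))) →
      ∀ n ≥ q * (i + j + 1), dist (g^[n] (R 0 1)) (g^[n] (R 1 1)) ≤
        c * (1 / 2) ^ (n - q * (i + j + 1)) := by
  classical
  have hc := hg.c_pos
  obtain ⟨η, hη, hcol⟩ := col_close hg hs K
  obtain ⟨Q, col, hcl⟩ := exists_col X (half_pos hη)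
  obtain ⟨k₀, hk₀⟩ := pw (c := c) (half_pos hη)
  refine ⟨Q * (k₀ + 1) + 1, fun i j R hR hu hst n hn => ?_⟩
  set m := i + j with hm
  have hR' := hR.iter' i
  set R' : I → I → X := fun s t => g.symm^[i] (R s t) with hR'd
  have hl : ∀ s t, Lv g ρ K (R' s 0) (R' s t) := by
    intro s t
    have hA : Rc g (fun s' t' => R' (s * s') (t * t')) :=
      hR'.reparam (a := fun s' => s * s') (b := fun t' => t * t') (by fun_prop) (by fun_prop)
    have h5 := hb _ hA (by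
      show Lv g ρ 0 (R' (s * 0) (t * 0)) (R' (s * 0) (t * 1))
      rw [mul_zero, mul_zero, mul_one]
      show Lv g ρ 0 (g.symm^[i] (R 0 0)) (g.symm^[i] (R 0 t))
      rw [Lv.add_iff, zero_add]
      exact hu t)
    have h6 : Lv g ρ K (R' (s * 1) (t * 0)) (R' (s * 1) (t * 1)) := h5
    rwa [mul_one, mul_zero, mul_one] at h6
  have hcc := hcol R' hR' (fun s t => (hl s t).mono' hρ)
  have hbase : ∀ s s', SR g c (g^[m] (R' s 0)) (g^[m] (R' s' 0)) := by
    intro s s'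
    have e : ∀ s, g^[m] (R' s 0) = g^[j] (R s 0) := fun s => by
      show g^[i + j] (g.symm^[i] (R s 0)) = g^[j] (R s 0)
      rw [add_comm, Function.iterate_add_apply, iterR]
    rw [e, e]
    exact (sr_tr (hst s).symm' (hst s')).mono (by linarith)
  have hco : Con g (fun _ : I => R' 0 0) (fun s => R' s 0) :=
    Con.reidx hR'.cs (fun s : I => (s, (0 : I)))
  have hcr : Continuous fun s : I => R' s 0 :=
    hR'.cont.comp (by fun_prop : Continuous fun s : I => (s, (0 : I)))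
  have hkey := chain_col (Y := Fin (m + k₀ + 1) → Fin (Q + 1)) (fun s => g^[n] (R s 1))
    (fun s s' => SR g (η / 2) (R' s 0) (R' s' 0)) (fun s s' h => h.symm')
    (fun s k => col (g^[(k : ℕ)] (R' s 0))) (e := c * (1 / 2) ^ n) (by positivity)
    (fun s s' s'' h1 h2 => by
      have h3 := hcc s s'' ((sr_tr h1 h2).mono (by linarith)) 1
      have h4 := hg.cS _ _ h3 (n + i)
      have e : ∀ s, g^[n + i] (R' s 1) = g^[n] (R s 1) := fun s => by
        show g^[n + i] (g.symm^[i] (R s 1)) = g^[n] (R s 1)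
        rw [Function.iterate_add_apply, iterR]
      rw [e, e] at h4
      refine h4.trans (pw_anti hc (by omega)))
    (fun s s' hss k => by
      rcases Nat.lt_or_ge k (m + k₀ + 1) with hk | hk
      · exact hcl _ _ (congrFun hss ⟨k, hk⟩)
      · have h3 := hg.cS _ _ (hbase s s') (k - m)
        rw [← Function.iterate_add_apply, ← Function.iterate_add_apply,
          Nat.sub_add_cancel (by omega)] at h3
        exact h3.trans ((pw_anti hc (by omega)).trans hk₀))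
    (fun s₀ => hco.cont hcr s₀ (half_pos hη)) _ Finset.univ rfl 0 (fun s _ => Finset.mem_univ _)
  have hcard : (Finset.univ : Finset (Fin (m + k₀ + 1) → Fin (Q + 1))).card =
      (Q + 1) ^ (m + k₀ + 1) := by
    rw [Finset.card_univ, Fintype.card_fun, Fintype.card_fin, Fintype.card_fin]
  rw [hcard] at hkey
  refine hkey.trans (half_pow hc.le ?_ hn)
  exact_mod_cast pow_bound Q k₀ m

end Pool.Agent.Y330.J
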