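import Pool.Agent.Y330.J.A4

set_option autoImplicit false
set_option linter.unusedSectionVars false

open Filter Topology Set Metric unitInterval

namespace Pool.Agent.Y330.J

open Pool.Agent.H789R2.AN Pool.Agent.H789R2.GP Pool.Agent.TH289.L
open Pool.Agent.TH304.K289 Pool.Agent.Y330.H Pool.Agent.Y330.G

variable {X : Type*} [MetricSpace X] [CompactSpace X] {g : X ≃ₜ X} {c : ℝ}

/-- first half of the interval -/
noncomputable def h1 (t : I) : I := ⟨(t : ℝ) / 2, by
  have := t.2.1; have := t.2.2; constructor <;> linarith⟩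

/-- second half of the interval -/
noncomputable def h2 (t : I) : I := ⟨(1 + (t : ℝ)) / 2, by
  have := t.2.1; have := t.2.2; constructor <;> linarith⟩

theorem h1_cont : Continuous h1 := by
  unfold h1
  fun_prop

theorem h2_cont : Continuous h2 := by
  unfold h2
  fun_prop

theorem trans_h1 {x y z : X} (p : Path x y) (q : Path y z) (t : I) :
    (p.trans q) (h1 t) = p t := by
  rw [Path.trans_apply, dif_pos (show ((h1 t : I) : ℝ) ≤ 1 / 2 by
    show (t : ℝ) / 2 ≤ 1 / 2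
    linarith [t.2.2])]
  congr 1
  apply Subtype.ext
  show 2 * ((t : ℝ) / 2) = t
  ring

theorem trans_h2 {x y z : X} (p : Path x y) (q : Path y z) (t : I) :
    (p.trans q) (h2 t) = q t := by
  rw [Path.trans_apply]
  split_ifs with h
  · have h3 : (1 + (t : ℝ)) / 2 ≤ 1 / 2 := h
    have h4 : t = 0 := Subtype.ext (le_antisymm (by
      show (t : ℝ) ≤ 0
      linarith) t.2.1)
    subst h4
    rw [q.source]
    have e : (⟨2 * ((h2 0 : I) : ℝ), (unitInterval.mul_pos_mem_iff zero_lt_two).2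
        ⟨(h2 0).2.1, h⟩⟩ : I) = 1 := by
      apply Subtype.ext
      show 2 * ((1 + ((0 : I) : ℝ)) / 2) = 1
      norm_num
    rw [e, p.target]
  · congr 1
    apply Subtype.ext
    show 2 * ((1 + (t : ℝ)) / 2) - 1 = t
    ring

/-- data for a generator -/
def GD (g : X ≃ₜ X) (c ρ : ℝ) (b l : ℕ) {x : X} (α : Path.Homotopic.Quotient x x) : Prop :=
  ∃ (y : X) (p : Path x y) (q : Path y x), LPath g.symm p ∧ LPath g q ∧
    α = (cl p).trans (cl q) ∧
    (∀ R : I → I → X, Rc g R → (∀ t, R 0 t = p t) → Lv g ρ b (R 1 0) (R 1 1)) ∧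
    ∀ s, SR g (c / 2) (g^[l] x) (g^[l] (q s))

/-- data for a product -/
def ND (g : X ≃ₜ X) (c : ℝ) (b B L : ℕ) {x : X} (α : Path.Homotopic.Quotient x x) : Prop :=
  ∃ (y : X) (p : Path x y) (q : Path y x), LPath g.symm p ∧ LPath g q ∧
    α = (cl p).trans (cl q) ∧
    (∀ R : I → I → X, Rc g R → (∀ t, R 0 t = p t) → ∀ n ≥ b,
      dist (g.symm^[n] (R 1 0)) (g.symm^[n] (R 1 1)) ≤ L * (c * (1 / 2) ^ (n - b))) ∧
    ∀ n ≥ B, dist (g^[n] y) (g^[n] x) ≤ L * (c * (1 / 2) ^ (n - B))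

theorem ND.zero (hg : LP g c) (b B : ℕ) (x : X) :
    ND g c b B 0 (Path.Homotopic.Quotient.refl x) := by
  refine ⟨x, Path.refl x, Path.refl x, LPath.refl _ _, LPath.refl _ _, ?_, ?_, ?_⟩
  · show Path.Homotopic.Quotient.refl x = (cl (Path.refl x)).trans (cl (Path.refl x))
    rw [show cl (Path.refl x) = Path.Homotopic.Quotient.refl x from
      Path.Homotopic.Quotient.mk_refl x, Path.Homotopic.Quotient.refl_trans]
  · intro R hR h0 n _
    have hR' : Rc g (fun s _ => R s 0) :=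
      hR.reparam (a := fun s => s) (b := fun _ => 0) continuous_id continuous_const
    have h5 := corner hg hR hR' (fun s => rfl) (by
      show R 0 1 = R 0 0
      rw [h0, h0]
      rfl)
    have h6 : R 1 1 = R 1 0 := h5
    rw [h6, dist_self]
    simp
  · intro n _
    rw [dist_self]
    simp

/-- one more generator -/
theorem ND.step (hg : LP g c) (hex : Ex g) {ρ : ℝ} (hρ0 : 0 < ρ) (hρ : ρ ≤ c) {q : ℕ}
    (hq : ∀ (i j : ℕ) (R : I → I → X), Rc g R →
      (∀ t, Lv g ρ i (R 0 0) (R 0 t)) → (∀ s, SR g (c / 2) (g^[j] (R 0 0)) (g^[j] (R s 0))) →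
      ∀ n ≥ q * (i + j + 1), dist (g^[n] (R 0 1)) (g^[n] (R 1 1)) ≤
        c * (1 / 2) ^ (n - q * (i + j + 1)))
    {η : ℝ} (hη : 0 < η) (hpath : ∀ x y : SM g.symm, dist x y ≤ η → ∃ υ : C(I, SM g.symm),
      υ 0 = x ∧ υ 1 = y ∧ ∀ t, dist x (υ t) ≤ ρ) {b B l a' L : ℕ}
    (ha : L * (c * (1 / 2) ^ a') ≤ η) (hB : q * (b + a' + l + 1) ≤ B) {x : X}
    {α β : Path.Homotopic.Quotient x x} (hα : GD g c ρ b l α) (hβ : ND g c b B L β) :
    ND g c b B (L + 1) (α.trans β) := by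
  have hc := hg.c_pos
  obtain ⟨y₁, p₁, q₁, hp₁, hq₁, rfl, hu₁, hs₁⟩ := hα
  obtain ⟨y₂, p₂, q₂, hp₂, hq₂, rfl, hu₂, hs₂⟩ := hβ
  obtain ⟨R, hR, hR0, hR1⟩ := hex x y₁ y₂ q₁.symm p₂ hq₁.symm hp₂
  obtain ⟨r, hr, hr'⟩ := Rc.right (y := R 1 1) hR (x := y₁) (by rw [hR0]; simp) rfl
  obtain ⟨t, ht, ht'⟩ := Rc.top (y := R 1 1) hR (x := y₂) (by rw [hR1]; simp) rfl
  have hsw := swap_cl hR.cont (α := q₁.symm) (β := r) (β' := p₂) (α' := t) hR0
    (fun t => (hr' t).symm) hR1 (fun s => (ht' s).symm)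
  rw [Path.symm_symm] at hsw
  refine ⟨R 1 1, p₁.trans r, t.symm.trans q₂, hp₁.trans hr, ht.symm.trans hq₂, ?_, ?_, ?_⟩
  · rw [cl_trans, cl_trans, Path.Homotopic.Quotient.trans_assoc,
      Path.Homotopic.Quotient.trans_assoc, ← Path.Homotopic.Quotient.trans_assoc (cl q₁), hsw,
      Path.Homotopic.Quotient.trans_assoc]
  · intro T hT hT0 n hn
    have hA : Rc g (fun s t => T s (h1 t)) :=
      hT.reparam (a := fun s => s) (b := h1) continuous_id h1_cont
    have hD : Rc g (fun s t => T s (h2 t)) :=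
      hT.reparam (a := fun s => s) (b := h2) continuous_id h2_cont
    have k1 := hu₁ _ hA (fun t => by
      show T 0 (h1 t) = p₁ t
      rw [hT0, trans_h1])
    have k1' : SR g.symm c (g.symm^[b] (T 1 (h1 0))) (g.symm^[b] (T 1 (h1 1))) :=
      SR.mono k1 hρ
    obtain ⟨W, hW, hW0, hW1⟩ := Rc.glueS hR hD (fun t => by
      show R 1 t = T 0 (h2 t)
      rw [hT0, trans_h2, hr'])
    have k2 := hu₂ W hW (fun t => by rw [hW0, hR1]) n hn
    rw [hW1, hW1] at k2
    have k2' : dist (g.symm^[n] (T 1 (h2 0))) (g.symm^[n] (T 1 (h2 1))) ≤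
      L * (c * (1 / 2) ^ (n - b)) := k2
    have k3 := hg.cU _ _ k1' (n - b)
    rw [← Function.iterate_add_apply, ← Function.iterate_add_apply, Nat.sub_add_cancel hn] at k3
    have e1 : h1 0 = 0 := Subtype.ext (by show ((0 : I) : ℝ) / 2 = 0; norm_num)
    have e2 : h2 1 = 1 := Subtype.ext (by show (1 + ((1 : I) : ℝ)) / 2 = 1; norm_num)
    have e3 : h2 0 = h1 1 := Subtype.ext (by
      show (1 + ((0 : I) : ℝ)) / 2 = ((1 : I) : ℝ) / 2
      norm_num)
    rw [e1] at k3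
    rw [e2, e3] at k2'
    have := dist_triangle (g.symm^[n] (T 1 0)) (g.symm^[n] (T 1 (h1 1))) (g.symm^[n] (T 1 1))
    push_cast
    linarith
  · intro n hn
    -- a good path from `x` to `y₂`
    have k1 : ∀ m ≥ b, dist (g.symm^[m] x) (g.symm^[m] y₂) ≤ L * (c * (1 / 2) ^ (m - b)) := by
      intro m hm
      have := hu₂ _ (rc_const hp₂) (fun t => rfl) m hm
      simpa using this
    have k2 : SR g.symm η (g.symm^[b + a'] x) (g.symm^[b + a'] y₂) := by
      intro k
      rw [← Function.iterate_add_apply, ← Function.iterate_add_apply]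
      refine (k1 (k + (b + a')) (by omega)).trans (le_trans ?_ ha)
      exact mul_le_mul_of_nonneg_left (pw_anti hc (by omega)) (Nat.cast_nonneg L)
    obtain ⟨w', f1, f2, f3⟩ := hpath ⟨g.symm^[b + a'] x⟩ ⟨g.symm^[b + a'] y₂⟩
      ((SM.dist_le _ _ hη.le).2 k2)
    obtain ⟨w, hw⟩ := path_push (b + a') w'
    let pp : Path x y₂ := ⟨⟨fun t => (w t).val, SM.val_continuous.comp w.continuous⟩,
      by
        show (w 0).val = x
        rw [hw, f1, iterR],
      by
        show (w 1).val = y₂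
        rw [hw, f2, iterR]⟩
    have hpp : LPath g.symm pp := lpath_of_sm hg.symm w pp fun t => rfl
    obtain ⟨V, hV, hV0, hV1⟩ := hex x y₁ y₂ q₁.symm pp hq₁.symm hpp
    have hx : V 0 0 = x := by rw [hV0]; simp
    have hcor : V 1 1 = R 1 1 := corner hg hV hR (fun s => by rw [hV0, hR0])
      (by rw [hV1, hR1]; simp)
    have k3 := hq (b + a') l V hV (fun t => by
        rw [hx, hV1]
        show Lv g ρ (b + a') x (w t).val
        unfold Lv
        rw [hw, iterL]
        exact (SM.dist_le _ _ hρ0.le).1 (f3 t))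
      (fun s => by
        rw [hx, hV0]
        exact hs₁ (σ s)) n (hB.trans hn)
    rw [hcor, hV1, pp.target] at k3
    have k4 : c * (1 / 2 : ℝ) ^ (n - q * (b + a' + l + 1)) ≤ c * (1 / 2) ^ (n - B) :=
      pw_anti hc (by omega)
    have k5 := hs₂ n hn
    have := dist_triangle_left (g^[n] (R 1 1)) (g^[n] x) (g^[n] y₂)
    push_cast
    linarith

end Pool.Agent.Y330.J
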