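import Pool.Agent.Y330.J.A5

set_option autoImplicit false
set_option linter.unusedSectionVars false

open Filter Topology Set Metric unitInterval
open scoped Pointwise

namespace Pool.Agent.Y330.J

open Pool.Agent.H789R2.AN Pool.Agent.H789R2.GP Pool.Agent.TH289.L
open Pool.Agent.TH304.K289 Pool.Agent.Y330.H Pool.Agent.Y330.G

variable {X : Type*} [MetricSpace X] [CompactSpace X] {g : X ≃ₜ X} {c : ℝ}

/-- every class is a generator datum -/
theorem GD.exists (hg : LP g c) (hX : ULC X) (hex : Ex g) {ρ : ℝ} (hρ0 : 0 < ρ) {K : ℕ}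
    (hb : Bd g ρ K) {x : X} (α : Path.Homotopic.Quotient x x) :
    ∃ N : ℕ, ∀ b ≥ N, ∀ l ≥ N, GD g c ρ b l α := by
  have hc := hg.c_pos
  obtain ⟨p₀, rfl⟩ := Path.Homotopic.Quotient.mk_surjective α
  obtain ⟨y, p, q, hp, hq, he⟩ := nf_all hg hX hex p₀
  obtain ⟨n₁, h1⟩ := hp ρ hρ0
  obtain ⟨n₂, h2⟩ := hq.symm (c / 2) (by positivity)
  refine ⟨K + n₁ + n₂, fun b hbN l hl => ⟨y, p, q, hp, hq, he, fun R hR h0 => ?_, fun s k => ?_⟩⟩
  · have h3 : Lv g ρ n₁ (R 0 0) (R 0 1) := by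
      intro k
      rw [h0, h0, p.source, p.target, ← Function.iterate_add_apply, ← Function.iterate_add_apply]
      have := h1 (k + n₁) (by omega) 1
      simpa using this
    exact (hb.shift n₁ hR h3).mono (by omega)
  · rw [← Function.iterate_add_apply, ← Function.iterate_add_apply]
    have := h2 (k + l) (by omega) (σ s)
    simpa using this

theorem GD.finite (hg : LP g c) (hX : ULC X) (hex : Ex g) {ρ : ℝ} (hρ0 : 0 < ρ) {K : ℕ}
    (hb : Bd g ρ K) {x : X} {S : Set (FundamentalGroup X x)} (hS : S.Finite) :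
    ∃ N : ℕ, ∀ α ∈ S, GD g c ρ N N (x := x) α := by
  choose N hN using fun α : FundamentalGroup X x => GD.exists (c := c) hg hX hex hρ0 hb (x := x) α
  obtain ⟨m, hm⟩ := (hS.image N).bddAbove
  refine ⟨m, fun α hα => hN α m ?_ m ?_⟩ <;> exact hm (mem_image_of_mem _ hα)

/-- the products -/
theorem nd_pow (hg : LP g c) (hex : Ex g) {ρ : ℝ} (hρ0 : 0 < ρ) (hρ : ρ ≤ c) {q : ℕ}
    (hq : ∀ (i j : ℕ) (R : I → I → X), Rc g R →
      (∀ t, Lv g ρ i (R 0 0) (R 0 t)) → (∀ s, SR g (c / 2) (g^[j] (R 0 0)) (g^[j] (R s 0))) →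
      ∀ n ≥ q * (i + j + 1), dist (g^[n] (R 0 1)) (g^[n] (R 1 1)) ≤
        c * (1 / 2) ^ (n - q * (i + j + 1)))
    {η : ℝ} (hη : 0 < η) (hpath : ∀ x y : SM g.symm, dist x y ≤ η → ∃ υ : C(I, SM g.symm),
      υ 0 = x ∧ υ 1 = y ∧ ∀ t, dist x (υ t) ≤ ρ) {b B l a' L : ℕ}
    (ha : L * (c * (1 / 2) ^ a') ≤ η) (hB : q * (b + a' + l + 1) ≤ B) {x : X}
    {S : Set (FundamentalGroup X x)} (hS : ∀ α ∈ S, GD g c ρ b l (x := x) α) :
    ∀ n ≤ L, ∀ α ∈ S ^ n, ND g c b B n (x := x) α := by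
  have hc := hg.c_pos
  intro n
  induction n with
  | zero =>
    intro _ α hα
    rw [pow_zero, Set.mem_one] at hα
    rw [hα, FundamentalGroup.one_def]
    exact ND.zero hg b B x
  | succ n ih =>
    intro hn α hα
    rw [pow_succ] at hα
    obtain ⟨β, hβ, γ, hγ, rfl⟩ := Set.mem_mul.1 hα
    rw [FundamentalGroup.mul_def]
    refine ND.step hg hex hρ0 hρ hq hη hpath (a' := a') (le_trans ?_ ha) hB (hS γ hγ)
      (ih (by omega) β hβ)
    exact mul_le_mul_of_nonneg_right (by exact_mod_cast (show n ≤ L by omega)) (by positivity)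

/-- two points with the same colours coincide -/
theorem col_eq (hg : LP g c) {Q : ℕ} {col : X → Fin (Q + 1)}
    (hcol : ∀ x y, col x = col y → dist x y ≤ c) {i j : ℕ} {y y' : X}
    (h1 : ∀ m ≥ i, dist (g.symm^[m] y) (g.symm^[m] y') ≤ c)
    (h2 : ∀ m ≥ j, dist (g^[m] y) (g^[m] y') ≤ c)
    (h3 : ∀ m ≤ i + j, col (g^[m] (g.symm^[i] y)) = col (g^[m] (g.symm^[i] y'))) : y = y' := by
  have e1 : ∀ m ≤ i, ∀ z : X, g^[m] (g.symm^[i] z) = g.symm^[i - m] z := by
    intro m hm z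
    conv_lhs => rw [show i = m + (i - m) by omega, Function.iterate_add_apply]
    exact iterR _ _ _
  have e2 : ∀ m, ∀ z : X, g^[i + m] (g.symm^[i] z) = g^[m] z := by
    intro m z
    rw [add_comm i m, Function.iterate_add_apply, iterR]
  refine expans hg (fun m => ?_) fun m => ?_
  · rcases le_total j m with h | h
    · exact h2 m h
    · have := hcol _ _ (h3 (i + m) (by omega))
      rwa [e2, e2] at this
  · rcases le_total i m with h | h
    · exact h1 m h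
    · have := hcol _ _ (h3 (i - m) (by omega))
      rw [e1 _ (by omega), e1 _ (by omega)] at this
      rwa [show i - (i - m) = m by omega] at this

theorem half_pow' {n k : ℕ} (h : 2 * n ≤ 2 ^ k) {c : ℝ} (hc : 0 ≤ c) (m : ℕ) :
    n * (c * (1 / 2) ^ (m + k)) ≤ c / 2 * (1 / 2) ^ m := by
  have h1 : (n : ℝ) * (1 / 2) ^ k ≤ 1 / 2 := by
    have h2 : (2 * n : ℝ) ≤ 2 ^ k := by exact_mod_cast h
    have h3 : (2 : ℝ) ^ k * (1 / 2) ^ k = 1 := by
      rw [← mul_pow]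
      norm_num
    have h4 : (0 : ℝ) < (1 / 2) ^ k := by positivity
    nlinarith
  have h5 : (n : ℝ) * (c * (1 / 2) ^ (m + k)) = c * (1 / 2) ^ m * (n * (1 / 2) ^ k) := by
    rw [pow_add]
    ring
  rw [h5]
  have h6 : 0 ≤ c * (1 / 2 : ℝ) ^ m := by positivity
  nlinarith

/-- polynomial growth, the abstract form -/
theorem growth (hg : LP g c) (hX : ULC X) {c₁ : ℝ} (hc₁ : c₁ ≤ c) (hs : Sl g c c₁) (hex : Ex g)
    {ρ : ℝ} (hρ0 : 0 < ρ) (hρ : ρ ≤ c₁) {K : ℕ} (hb : Bd g ρ K) :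
    ∃ d : ℕ, ∀ (x : X) (S : Set (FundamentalGroup X x)), S.Finite →
      ∃ C : ℕ, ∀ n : ℕ, (S ^ n).ncard ≤ C * (n + 1) ^ d := by
  classical
  have hc := hg.c_pos
  obtain ⟨q, hq⟩ := transport hg hs hρ hb
  obtain ⟨η, hη, hpath⟩ := leaf_path hg.symm hX ρ hρ0
  obtain ⟨Q, col, hcol⟩ := exists_col X hc
  obtain ⟨a₁, ha₁⟩ := pw (c := c) hη
  refine ⟨Q * (q + 2), fun x S hS => ?_⟩
  obtain ⟨N, hN⟩ := GD.finite hg hX hex hρ0 hb hS
  refine ⟨(2 ^ Q) ^ (2 * N + q * (2 * N + a₁ + 1) + 1 + 2 * (q + 2)), fun n => ?_⟩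
  set k := Nat.log 2 (n + 1) + 2 with hk
  have hk1 : 2 * n ≤ 2 ^ k := by
    have := Nat.lt_pow_succ_log_self (b := 2) (by norm_num) (n + 1)
    rw [hk, pow_succ]
    omega
  have hk2 : 2 ^ k ≤ 4 * (n + 1) := by
    have := Nat.pow_log_le_self 2 (x := n + 1) (by omega)
    rw [hk, pow_add]
    omega
  set B := q * (N + (a₁ + k) + N + 1) with hB
  have hnd := nd_pow hg hex hρ0 (hρ.trans hc₁) hq hη hpath (b := N) (B := B) (l := N)
    (a' := a₁ + k) (L := n) (by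
      have h1 := half_pow' hk1 hc.le a₁
      have h2 : (0:ℝ) ≤ c * (1 / 2) ^ a₁ := by positivity
      linarith) le_rfl hN n le_rfl
  set i := N + k with hi
  set j := B + k with hj
  have hne : Nonempty X := ⟨x⟩
  have hnd' : ∀ α ∈ S ^ n, ∃ y : X, ∃ (p : Path x y) (r : Path y x), LPath g.symm p ∧
      LPath g r ∧ α = (cl p).trans (cl r) ∧
      (∀ R : I → I → X, Rc g R → (∀ t, R 0 t = p t) → ∀ m ≥ N,
        dist (g.symm^[m] (R 1 0)) (g.symm^[m] (R 1 1)) ≤ n * (c * (1 / 2) ^ (m - N))) ∧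
      ∀ m ≥ B, dist (g^[m] y) (g^[m] x) ≤ n * (c * (1 / 2) ^ (m - B)) := hnd
  choose! y hy using hnd'
  have hU : ∀ α ∈ S ^ n, ∀ m ≥ i, dist (g.symm^[m] x) (g.symm^[m] (y α)) ≤ c / 2 := by
    intro α hα m hm
    obtain ⟨p, r, hp, -, -, hu, -⟩ := hy α hα
    have h1 := hu _ (rc_const hp) (fun t => rfl) m (by omega)
    have h2 := half_pow' hk1 hc.le (m - i)
    have h3 : c / 2 * (1 / 2 : ℝ) ^ (m - i) ≤ c / 2 :=
      mul_le_of_le_one_right (by positivity) (pow_le_one₀ (by norm_num) (by norm_num))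
    rw [show m - i + k = m - N by omega] at h2
    simp only [Path.source, Path.target] at h1
    linarith
  have hV : ∀ α ∈ S ^ n, ∀ m ≥ j, dist (g^[m] (y α)) (g^[m] x) ≤ c / 2 := by
    intro α hα m hm
    obtain ⟨p, r, -, -, -, -, hv⟩ := hy α hα
    have h1 := hv m (by omega)
    have h2 := half_pow' hk1 hc.le (m - j)
    have h3 : c / 2 * (1 / 2 : ℝ) ^ (m - j) ≤ c / 2 :=
      mul_le_of_le_one_right (by positivity) (pow_le_one₀ (by norm_num) (by norm_num))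
    rw [show m - j + k = m - B by omega] at h2
    linarith
  have hinj : Set.InjOn (fun α => fun m : Fin (i + j + 1) =>
      col (g^[(m : ℕ)] (g.symm^[i] (y α)))) (S ^ n) := by
    intro α hα β hβ hab
    have h1 : y α = y β := col_eq hg hcol
      (fun m hm => by
        have := dist_triangle_left (g.symm^[m] (y α)) (g.symm^[m] (y β)) (g.symm^[m] x)
        linarith [hU α hα m hm, hU β hβ m hm])
      (fun m hm => by
        have := dist_triangle_right (g^[m] (y α)) (g^[m] (y β)) (g^[m] x)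
        linarith [hV α hα m hm, hV β hβ m hm])
      (fun m hm => congrFun hab ⟨m, by omega⟩)
    obtain ⟨p, r, p1, r1, e1, -, -⟩ := hy α hα
    obtain ⟨p', r', p2, r2, e2, -, -⟩ := hy β hβ
    rw [e1, e2]
    clear e1 e2 hab hα hβ
    generalize y β = yb at *
    subst h1
    rw [cl_eq (hom_unique hX p1 p2), cl_eq (hom_unique hX r1 r2)]
  have hcard : (S ^ n).ncard ≤ (Q + 1) ^ (i + j + 1) := by
    have h1 := Set.ncard_le_ncard_of_injOn _ (t := (Set.univ : Set (Fin (i + j + 1) → Fin (Q + 1))))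
      (fun α _ => mem_univ _) hinj
    rwa [Set.ncard_univ, Nat.card_eq_fintype_card, Fintype.card_fun, Fintype.card_fin,
      Fintype.card_fin] at h1
  refine hcard.trans ?_
  have hQ2 : (Q + 1) ^ (i + j + 1) ≤ (2 ^ Q) ^ (i + j + 1) :=
    Nat.pow_le_pow_left Nat.lt_two_pow_self _
  refine hQ2.trans ?_
  have hij : i + j + 1 = (2 * N + q * (2 * N + a₁ + 1) + 1 - N) + k * (q + 2) := by
    have : q * (2 * N + a₁ + 1) + q * k = B := by
      rw [hB]
      ring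
    have h7 : k * (q + 2) = q * k + 2 * k := by ring
    rw [h7, hi, hj, ← this]
    omega
  have h8 : (2 ^ Q) ^ (k * (q + 2)) ≤ (2 ^ Q) ^ (2 * (q + 2)) * (n + 1) ^ (Q * (q + 2)) := by
    calc (2 ^ Q) ^ (k * (q + 2)) = (2 ^ k) ^ (Q * (q + 2)) := by
          rw [← pow_mul, ← pow_mul]
          congr 1
          ring
      _ ≤ (4 * (n + 1)) ^ (Q * (q + 2)) := Nat.pow_le_pow_left hk2 _
      _ = (2 ^ Q) ^ (2 * (q + 2)) * (n + 1) ^ (Q * (q + 2)) := by
          rw [mul_pow]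
          congr 1
          rw [show (4 : ℕ) = 2 ^ 2 by norm_num, ← pow_mul, ← pow_mul]
          congr 1
          ring
  calc (2 ^ Q) ^ (i + j + 1)
      = (2 ^ Q) ^ (2 * N + q * (2 * N + a₁ + 1) + 1 - N) * (2 ^ Q) ^ (k * (q + 2)) := by
        rw [hij, pow_add]
    _ ≤ (2 ^ Q) ^ (2 * N + q * (2 * N + a₁ + 1) + 1) *
        ((2 ^ Q) ^ (2 * (q + 2)) * (n + 1) ^ (Q * (q + 2))) := by
        refine Nat.mul_le_mul (Nat.pow_le_pow_right (by positivity) (by omega)) h8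
    _ = _ := by
        rw [← mul_assoc, ← pow_add]

end Pool.Agent.Y330.J
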