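import Pool.Agent.Y330.J.A6
import Pool.Agent.Y330.H.P2

set_option autoImplicit false
set_option linter.unusedSectionVars false

open Filter Topology Set Metric
open scoped Manifold ContDiff Pointwise

namespace Pool.Agent.Y330.J

open Pool.Agent.H721R2 Pool.Agent.H789R2.AN Pool.Agent.H789R2.GP Pool.Agent.TH304.K289
open Pool.Agent.TH289.L Pool.Agent.TH289 Pool.Agent.TH289.K
open Pool.Agent.Y330.G Pool.Agent.Y330.H
open Pool.Agent.W740.TU (anosov_symm transitive_symm)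

section abs

variable {X : Type*} [MetricSpace X] [CompactSpace X] {g : X ≃ₜ X} {c : ℝ}

/-- polynomial growth of all fundamental groups -/
def PG (X : Type*) [TopologicalSpace X] : Prop :=
  ∃ d : ℕ, ∀ (x : X) (S : Set (FundamentalGroup X x)), S.Finite →
    ∃ C : ℕ, ∀ n : ℕ, (S ^ n).ncard ≤ C * (n + 1) ^ d

theorem pg_trivial [Subsingleton X] : PG X := by
  refine ⟨0, fun x S hS => ⟨1, fun n => ?_⟩⟩
  have : Subsingleton (FundamentalGroup X x) := by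
    refine ⟨fun α β => ?_⟩
    obtain ⟨p, rfl⟩ := Path.Homotopic.Quotient.mk_surjective (x₀ := x) (x₁ := x) α
    obtain ⟨q, rfl⟩ := Path.Homotopic.Quotient.mk_surjective (x₀ := x) (x₁ := x) β
    congr 1
    ext t
    exact Subsingleton.elim _ _
  simpa using Set.ncard_le_one_of_subsingleton (S ^ n)

/-- the bound for all rectangles -/
theorem bd_all [ConnectedSpace X] [Nontrivial X] (hg : LP g c) (hX : ULC X) {c₁ : ℝ}
    (hc₁ : 0 < c₁) (hc₁c : c₁ ≤ c) (hs : Sl g c c₁) (hs' : Sl g.symm c c₁) {ρ : ℝ} (hρ0 : 0 < ρ)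
    (hρ : 2 * ρ ≤ c₁) (hρc : ρ ≤ c / 4) {a : ℕ} (hQ : QH g ρ a) : ∃ K, Bd g ρ K := by
  have hI := ih_all hg
  have huniv : IsAtt g.symm (univ : Set X) :=
    ⟨isClosed_univ, univ_nonempty, fun _ => by simp, fun _ _ _ _ => mem_univ _⟩
  obtain ⟨R, -, hR⟩ := exists_minAtt huniv
  have hRu : R = univ := no_repeller hg hX hc₁ hc₁c hs hs' hρ0 hρ hρc hQ hI hR
  rw [hRu] at hR
  obtain ⟨K, hK⟩ := bounded hg hX hc₁ hc₁c hs hs' hρ0 (by linarith) hρc hQ hI hR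
  exact ⟨K, fun R hR h0 => hK R hR (mem_univ _) h0⟩

/-- polynomial growth -/
theorem abs_pg [ConnectedSpace X] {f : X ≃ₜ X} {N : ℕ} (hN : 1 ≤ N) {c : ℝ}
    (hg : LP (iterHomeo f N) c) (hX : ULC X) {𝒰 : Set (X × X)} (h𝒰 : 𝒰 ∈ 𝓝ˢ (diagonal X))
    (hc : ∀ p ∈ 𝒰, dist p.1 p.2 ≤ c) (hQ : QuasisymmetricHolonomy f 𝒰) : PG X := by
  rcases subsingleton_or_nontrivial X with hsub | hnt
  · exact pg_trivial
  · have hc0 := hg.c_pos
    obtain ⟨c₁, hc₁, hs⟩ := exists_sl hg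
    obtain ⟨c₂, hc₂, hs'⟩ := exists_sl hg.symm
    obtain ⟨r, hr, h1⟩ := qh_of hN hg h𝒰 hc hQ
    set c₃ := min c (min c₁ c₂) with hc₃
    have hc₃0 : 0 < c₃ := by positivity
    have k0 : c₃ ≤ c := min_le_left _ _
    have k1 : c₃ ≤ c₁ := (min_le_right _ _).trans (min_le_left _ _)
    have k2 : c₃ ≤ c₂ := (min_le_right _ _).trans (min_le_right _ _)
    set ρ := min r (c₃ / 4) with hρ
    have hρ0 : 0 < ρ := by positivity
    have k3 : ρ ≤ r := min_le_left _ _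
    have k4 : ρ ≤ c₃ / 4 := min_le_right _ _
    obtain ⟨a, ha⟩ := h1 ρ hρ0 k3
    have hlf := lf_all hg hX hc₃0 k0 (hs.mono k1) (hs'.mono k2) hρ0 (by linarith) (by linarith) ha
      (ih_all hg)
    obtain ⟨K, hK⟩ := bd_all hg hX hc₃0 k0 (hs.mono k1) (hs'.mono k2) hρ0 (by linarith)
      (by linarith) ha
    exact growth hg hX k0 (hs.mono k1) (ex_of_lf hg hc₃0 (hs.mono k1) hlf) hρ0 (by linarith) hK

end abs

section manifold

variable {E : Type*} [NormedAddCommGroup E] [NormedSpace ℝ E] [FiniteDimensional ℝ E]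
  {M : Type*} [TopologicalSpace M] [T2Space M] [CompactSpace M] [ConnectedSpace M]
  [ChartedSpace E M] [IsManifold 𝓘(ℝ, E) ∞ M]

theorem man_pg (f : Diffeomorph 𝓘(ℝ, E) 𝓘(ℝ, E) M M 1)
    (Es Eu : ∀ x : M, Submodule ℝ (TangentSpace 𝓘(ℝ, E) x)) (hA : IsAnosov f Es Eu) :
    ∃ 𝒰₀ ∈ 𝓝ˢ (diagonal M), ∀ 𝒰 ∈ 𝓝ˢ (diagonal M), 𝒰 ⊆ 𝒰₀ →
      QuasisymmetricHolonomy f.toHomeomorph 𝒰 → PG M := by
  obtain ⟨m, ee, hee, hemb, hinje⟩ :=
    exists_embedding_euclidean_of_compact (I := 𝓘(ℝ, E)) (M := M)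
  let _ : MetricSpace M := hemb.isEmbedding.comapMetricSpace ee
  have hiso : ∀ x y : M, dist x y = ‖ee x - ee y‖ := fun x y => dist_eq_norm (ee x) (ee y)
  have he1 : ContMDiff 𝓘(ℝ, E) (𝓡 m) 1 ee := hee.of_le (by simp)
  obtain ⟨N, ⟨S, hg, -, -, -⟩, hN⟩ :=
    ((exists_sys_ev hiso he1 hinje f Es Eu hA).and (eventually_ge_atTop 1)).exists
  have : ProperSpace E := FiniteDimensional.proper_real E
  obtain ⟨c, hLP⟩ := exists_LP S
  rw [hg] at hLP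
  have hX : ULC M := ulc_of_charted (X := M) (E := E)
  refine ⟨{p | dist p.1 p.2 < c}, (diag_iff _).2 ⟨c, hLP.c_pos, fun x y h => h⟩,
    fun 𝒰 h𝒰 hsub hQ => ?_⟩
  exact abs_pg hN hLP hX h𝒰 (fun p hp => (hsub hp : dist p.1 p.2 < c).le) hQ

/-- the form for both foliations -/
theorem man_pg2 (f : Diffeomorph 𝓘(ℝ, E) 𝓘(ℝ, E) M M 1)
    (Es Eu : ∀ x : M, Submodule ℝ (TangentSpace 𝓘(ℝ, E) x)) (hA : IsAnosov f Es Eu) :
    ∃ 𝒰₀ ∈ 𝓝ˢ (diagonal M), ∀ 𝒰 ∈ 𝓝ˢ (diagonal M), 𝒰 ⊆ 𝒰₀ →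
      (QuasisymmetricHolonomy f.toHomeomorph 𝒰 ∨ QuasisymmetricHolonomy f.toHomeomorph.symm 𝒰) →
      TopTransitive f ∧ GPS f.toHomeomorph ∧ (∃ π : E → M, IsCoveringMap π ∧
        Function.Surjective π) ∧ ∃ d : ℕ, ∀ (x : M) (S : Set (FundamentalGroup M x)), S.Finite →
        ∃ C : ℕ, ∀ n : ℕ, (S ^ n).ncard ≤ C * (n + 1) ^ d := by
  obtain ⟨𝒰₀, h1, h2⟩ := man_qh2 f Es Eu hA
  obtain ⟨𝒰₁, h3, h4⟩ := man_pg f Es Eu hA
  obtain ⟨𝒰₂, h5, h6⟩ := man_pg f.symm Eu Es (anosov_symm f Es Eu hA)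
  refine ⟨𝒰₀ ∩ (𝒰₁ ∩ 𝒰₂), inter_mem h1 (inter_mem h3 h5), fun 𝒰 h𝒰 hsub hQ => ?_⟩
  obtain ⟨k1, k2, k3⟩ := h2 𝒰 h𝒰 (hsub.trans inter_subset_left) hQ
  refine ⟨k1, k2, k3, ?_⟩
  rcases hQ with hQ | hQ
  · exact h4 𝒰 h𝒰 (hsub.trans (inter_subset_right.trans inter_subset_left)) hQ
  · exact h6 𝒰 h𝒰 (hsub.trans (inter_subset_right.trans inter_subset_right)) hQ

end manifold

end Pool.Agent.Y330.J
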